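import Mathlib

set_option autoImplicit false

/-!
# Uncountably many projective classes of nontrivial `(4,6)`-geproci sets

For `c ≠ 0, 1` the `24` points `(p_i, t q_i)`, `i = 0, ..., 3`, `t ^ 3 = 1` or `t ^ 3 = c`, of
`ℙ(ℂ² ⊕ ℂ²)`, where `p_i`, `q_i` are the vertices of an equianharmonic quadruple and of the
conjugate quadruple of `ℙ¹`, form a nontrivial `(4, 6)`-geproci set: for a general point `P` there
are two cubic cones with vertex `P`, one through the `12` points with `t ^ 3 = 1` and one through the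
`12` points with `t ^ 3 = c`, and the four planes joining `P` to the four lines `L_i = ⟨p_i, q_i⟩`
meet them exactly in the lines joining `P` to the `24` points.  A projective equivalence class
contains only finitely many of these sets.
-/

open MvPolynomial Module
open scoped LinearAlgebra.Projectivization Pointwise

namespace Pool.Agent.Results.MP_e29873_ag.UncountableModuli

/-! ## Definitions -/

/-- The image of a set of points of `ℙ³` under the projection `ℙ³ ⇢ ℙ²` given by a linear map. -/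
def projImage (π : (Fin 4 → ℂ) →ₗ[ℂ] (Fin 3 → ℂ)) (Z : Set (ℙ ℂ (Fin 4 → ℂ))) :
    Set (ℙ ℂ (Fin 3 → ℂ)) :=
  {q | ∃ p ∈ Z, q.submodule = p.submodule.map π}

/-- The plane curve given by a homogeneous form in three variables. -/
def zeroLocus (F : MvPolynomial (Fin 3) ℂ) : Set (ℙ ℂ (Fin 3 → ℂ)) :=
  {q | ∀ v ∈ q.submodule, eval v F = 0}

/-- `Z` is `(a, b)`-geproci: it consists of `a * b` points and, for all `P` outside the zero set
of some nonzero polynomial `Φ`, the image of `Z` under the projection from `P` consists of `a * b`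
points and is the intersection of a curve of degree `a` and a curve of degree `b` without common
component. -/
def IsGeproci (a b : ℕ) (Z : Set (ℙ ℂ (Fin 4 → ℂ))) : Prop :=
  Z.Finite ∧ Z.ncard = a * b ∧
  ∃ Φ : MvPolynomial (Fin 4) ℂ, Φ ≠ 0 ∧ ∀ P : Fin 4 → ℂ, eval P Φ ≠ 0 →
    ∀ π : (Fin 4 → ℂ) →ₗ[ℂ] (Fin 3 → ℂ), Function.Surjective π →
      LinearMap.ker π = Submodule.span ℂ {P} →
      ∃ F G : MvPolynomial (Fin 3) ℂ, F.IsHomogeneous a ∧ G.IsHomogeneous b ∧ IsRelPrime F G ∧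
        projImage π Z = zeroLocus F ∩ zeroLocus G ∧ (projImage π Z).ncard = a * b

/-- `Z` is an `(a, b)`-grid. -/
def IsGrid (a b : ℕ) (Z : Set (ℙ ℂ (Fin 4 → ℂ))) : Prop :=
  ∃ (L : Fin a → Submodule ℂ (Fin 4 → ℂ)) (M : Fin b → Submodule ℂ (Fin 4 → ℂ)),
    (∀ i, finrank ℂ (L i) = 2) ∧ (∀ j, finrank ℂ (M j) = 2) ∧
    (∀ i i', i ≠ i' → Disjoint (L i) (L i')) ∧ (∀ j j', j ≠ j' → Disjoint (M j) (M j')) ∧
    (∀ i j, finrank ℂ ↥(L i ⊓ M j) = 1) ∧
    Z = {p | ∃ i j, p.submodule = L i ⊓ M j}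

/-- `Z` is contained in a plane of `ℙ³`. -/
def IsDegenerate (Z : Set (ℙ ℂ (Fin 4 → ℂ))) : Prop :=
  ∃ H : Submodule ℂ (Fin 4 → ℂ), finrank ℂ H = 3 ∧ ∀ p ∈ Z, p.submodule ≤ H

/-- `Z` is a nontrivial `(a, b)`-geproci set: it is not contained in a plane and not a grid. -/
def IsNontrivialGeproci (a b : ℕ) (Z : Set (ℙ ℂ (Fin 4 → ℂ))) : Prop :=
  IsGeproci a b Z ∧ ¬ IsDegenerate Z ∧ ∀ a' b', ¬ IsGrid a' b' Z

/-- The set of projective equivalence classes of nontrivial `(a, b)`-geproci sets: the orbits of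
`GL₄(ℂ)` acting on the set of the subsets of `ℙ³`. -/
def nontrivialClasses (a b : ℕ) :
    Set (MulAction.orbitRel.Quotient ((Fin 4 → ℂ) ≃ₗ[ℂ] (Fin 4 → ℂ))
      (Set (ℙ ℂ (Fin 4 → ℂ)))) :=
  {κ | ∃ Z, IsNontrivialGeproci a b Z ∧
    (Quotient.mk (MulAction.orbitRel ((Fin 4 → ℂ) ≃ₗ[ℂ] (Fin 4 → ℂ)) _) Z) = κ}

/-! ## The configuration -/

/-- a primitive cube root of unity -/
noncomputable def om : ℂ := ⟨-1 / 2, Real.sqrt 3 / 2⟩

lemma om_eq : om ^ 2 + om + 1 = 0 := by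
  have h : Real.sqrt 3 ^ 2 = 3 := Real.sq_sqrt (by norm_num)
  apply Complex.ext
  · simp only [om, pow_two, Complex.add_re, Complex.mul_re, Complex.one_re, Complex.zero_re]
    nlinarith
  · simp only [om, pow_two, Complex.add_im, Complex.mul_im, Complex.one_im, Complex.zero_im]
    ring

lemma om3 : om ^ 3 = 1 := by linear_combination (om - 1) * om_eq

lemma om_ne_one : om ≠ 1 := by
  intro h
  have := om_eq
  rw [h] at this
  norm_num at this

lemma om_ne_zero : om ≠ 0 := by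
  intro h
  have := om_eq
  rw [h] at this
  norm_num at this

noncomputable def P1 : Fin 4 → ℂ := ![1, 1, 1, 0]
noncomputable def P2 : Fin 4 → ℂ := ![1, om, om ^ 2, 1]
noncomputable def Q1 : Fin 4 → ℂ := ![1, 1, 1, 0]
noncomputable def Q2 : Fin 4 → ℂ := ![1, om ^ 2, om, -1]

/-- a vector of the `i`-th line -/
noncomputable def vec (i : Fin 4) (α β : ℂ) : Fin 4 → ℂ :=
  ![α * P1 i, α * P2 i, β * Q1 i, β * Q2 i]

/-- the cubic cone -/
def Gam {R : Type*} [CommRing R] (c u1 u2 v1 v2 y1 y2 z1 z2 : R) : R :=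
  c * (2 * (u1 * z1 - y1 * v1) ^ 3 - (u1 * z2 - y1 * v2) ^ 3 - (u2 * z1 - y2 * v1) ^ 3
    - ((u1 * z1 - y1 * v1) - (u2 * z2 - y2 * v2)) * ((u1 * z1 - y1 * v1) * (u2 * z2 - y2 * v2)
      + 2 * ((u1 * z2 - y1 * v2) * (u2 * z1 - y2 * v1))))
    + (v1 * z2 - v2 * z1) ^ 3 - c ^ 2 * (u1 * y2 - u2 * y1) ^ 3
    + c * (u1 * y2 - u2 * y1) * (v1 * z2 - v2 * z1) *
      (4 * (u1 * z1 - y1 * v1) + 2 * (u2 * z2 - y2 * v2))

/-- `[u, p_i]` -/
noncomputable def bp (i : Fin 4) (P : Fin 4 → ℂ) : ℂ := P 0 * P2 i - P 1 * P1 i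
/-- `[v, q_i]` -/
noncomputable def bq (i : Fin 4) (P : Fin 4 → ℂ) : ℂ := P 2 * Q2 i - P 3 * Q1 i

noncomputable def gam (c : ℂ) (P x : Fin 4 → ℂ) : ℂ :=
  Gam c (P 0) (P 1) (P 2) (P 3) (x 0) (x 1) (x 2) (x 3)

lemma Gam_add {R : Type*} [CommRing R] (c u1 u2 v1 v2 y1 y2 z1 z2 τ : R) :
    Gam c u1 u2 v1 v2 (y1 + τ * u1) (y2 + τ * u2) (z1 + τ * v1) (z2 + τ * v2) =
      Gam c u1 u2 v1 v2 y1 y2 z1 z2 := by
  unfold Gam
  ring

lemma Gam_line (c u1 u2 v1 v2 al be r : ℂ) (hr : r ^ 3 = 1) :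
    Gam c u1 u2 v1 v2 al (al * r) be (be * r ^ 2) =
      (be ^ 3 - c * al ^ 3) * (c * (u1 * r - u2) ^ 3 + (v1 * r ^ 2 - v2) ^ 3) := by
  unfold Gam
  linear_combination (- 3*c*v1^2*v2*al^3*r + 2*c*v1^3*al^3 + 1*c*v1^3*al^3*r^3
    + 6*c*u2*v1*v2*al^2*be - 3*c*u2^2*v1*al*be^2*r - 6*c*u1*v1^2*al^2*be
    - 6*c*u1*u2*v2*al*be^2 + 3*c*u1*u2^2*be^3*r + 3*c*u1^2*v2*al*be^2*r
    + 6*c*u1^2*v1*al*be^2 - 2*c*u1^3*be^3 - 1*c*u1^3*be^3*r^3) * hr

/-- the restriction of the cubic cone to the plane spanned by `P` and the `i`-th line -/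
lemma gam_vec (c : ℂ) (P : Fin 4 → ℂ) (i : Fin 4) (α β τ : ℂ) :
    gam c P (vec i α β + τ • P) =
      (β ^ 3 - c * α ^ 3) * (c * bp i P ^ 3 + bq i P ^ 3) := by
  have h0 : gam c P (vec i α β + τ • P) =
      Gam c (P 0) (P 1) (P 2) (P 3) (α * P1 i) (α * P2 i) (β * Q1 i) (β * Q2 i) := by
    unfold gam
    rw [← Gam_add c (P 0) (P 1) (P 2) (P 3) (α * P1 i) (α * P2 i) (β * Q1 i) (β * Q2 i) τ]
    simp [vec]
  rw [h0]
  fin_cases i
  · have := Gam_line c (P 0) (P 1) (P 2) (P 3) α β 1 (by ring)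
    simp only [bp, bq, P1, P2, Q1, Q2, Fin.zero_eta, Matrix.cons_val_zero, mul_one, one_pow] at *
    exact this
  · have := Gam_line c (P 0) (P 1) (P 2) (P 3) α β om om3
    simpa [bp, bq, P1, P2, Q1, Q2] using this
  · have := Gam_line c (P 0) (P 1) (P 2) (P 3) α β (om ^ 2) (by rw [← pow_mul, mul_comm, pow_mul, om3, one_pow])
    have h4 : (om ^ 2) ^ 2 = om := by linear_combination om * om3
    rw [h4] at this
    simpa [bp, bq, P1, P2, Q1, Q2] using this
  · simp [bp, bq, P1, P2, Q1, Q2, Gam]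
    ring

lemma gam_add (c : ℂ) (P x : Fin 4 → ℂ) (τ : ℂ) : gam c P (x + τ • P) = gam c P x := by
  unfold gam
  rw [← Gam_add c (P 0) (P 1) (P 2) (P 3) (x 0) (x 1) (x 2) (x 3) τ]
  simp

/-- `[p_i, p_j]` -/
noncomputable def pp (i j : Fin 4) : ℂ := P1 i * P2 j - P2 i * P1 j
/-- `[q_i, q_j]` -/
noncomputable def qq (i j : Fin 4) : ℂ := Q1 i * Q2 j - Q2 i * Q1 j

lemma om4 : om ^ 4 = om := by linear_combination om * om3
lemma om5 : om ^ 5 = om ^ 2 := by linear_combination om ^ 2 * om3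
lemma om6 : om ^ 6 = 1 := by linear_combination (om ^ 3 + 1) * om3

lemma om_sq_ne_one : om ^ 2 ≠ 1 := by
  intro h
  apply om_ne_one
  have h1 := om3
  rw [pow_succ, h, one_mul] at h1
  exact h1

lemma om_sq_ne : om ^ 2 ≠ om := by
  intro h
  apply om_ne_one
  have h1 : om * (om - 1) = 0 := by linear_combination h
  rcases mul_eq_zero.1 h1 with h2 | h2
  · exact absurd h2 om_ne_zero
  · exact sub_eq_zero.1 h2

lemma pp_ne {i j : Fin 4} (h : i ≠ j) : pp i j ≠ 0 := by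
  have h1 := om_ne_one
  have h2 := om_sq_ne_one
  have h3 := om_sq_ne
  fin_cases i <;> fin_cases j <;> simp [pp, P1, P2, sub_eq_zero, h1, h2, h3, h1.symm, h2.symm,
    h3.symm] at h ⊢

lemma qq_cube (i j : Fin 4) : qq i j ^ 3 = - pp i j ^ 3 := by
  have h := om_eq
  fin_cases i <;> fin_cases j <;> simp [pp, qq, P1, P2, Q1, Q2] <;> grind

/-- the `24` points -/
def config (c : ℂ) : Set (ℙ ℂ (Fin 4 → ℂ)) :=
  {p | ∃ i t, (t ^ 3 = 1 ∨ t ^ 3 = c) ∧ p.submodule = Submodule.span ℂ {vec i 1 t}}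

lemma PP_ne (i : Fin 4) : ¬ (P1 i = 0 ∧ P2 i = 0) := by
  fin_cases i <;> simp [P1, P2]

lemma QQ_ne (i : Fin 4) : ¬ (Q1 i = 0 ∧ Q2 i = 0) := by
  fin_cases i <;> simp [Q1, Q2]

lemma vec_zero (i : Fin 4) (α β : ℂ) : vec i α β 0 = α * P1 i := rfl
lemma vec_one (i : Fin 4) (α β : ℂ) : vec i α β 1 = α * P2 i := rfl
lemma vec_two (i : Fin 4) (α β : ℂ) : vec i α β 2 = β * Q1 i := rfl
lemma vec_three (i : Fin 4) (α β : ℂ) : vec i α β 3 = β * Q2 i := rfl

lemma vec_smul (i : Fin 4) (r α β : ℂ) : r • vec i α β = vec i (r * α) (r * β) := by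
  ext k
  fin_cases k <;> simp [vec, mul_assoc]

lemma vec_add (i : Fin 4) (α β α' β' : ℂ) : vec i α β + vec i α' β' = vec i (α + α') (β + β') := by
  ext k
  fin_cases k <;> simp [vec, add_mul]

lemma vec_inj {i : Fin 4} {α β α' β' : ℂ} (h : vec i α β = vec i α' β') : α = α' ∧ β = β' := by
  have h0 := congrFun h 0
  have h1 := congrFun h 1
  have h2 := congrFun h 2
  have h3 := congrFun h 3
  simp only [vec_zero, vec_one, vec_two, vec_three] at h0 h1 h2 h3
  constructor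
  · by_contra hne
    refine PP_ne i ⟨?_, ?_⟩
    · by_contra h
      exact hne (mul_right_cancel₀ h h0)
    · by_contra h
      exact hne (mul_right_cancel₀ h h1)
  · by_contra hne
    refine QQ_ne i ⟨?_, ?_⟩
    · by_contra h
      exact hne (mul_right_cancel₀ h h2)
    · by_contra h
      exact hne (mul_right_cancel₀ h h3)

lemma vec_ne_zero {i : Fin 4} {α β : ℂ} (h : α ≠ 0) : vec i α β ≠ 0 := by
  intro h0
  have : vec i α β = vec i 0 0 := by
    rw [h0]
    ext k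
    fin_cases k <;> simp [vec]
  exact h (vec_inj this).1

lemma bp_vec (i j : Fin 4) (α β : ℂ) : bp i (vec j α β) = α * pp j i := by
  unfold bp pp
  rw [vec_zero, vec_one]
  ring

lemma bq_vec (i j : Fin 4) (α β : ℂ) : bq i (vec j α β) = β * qq j i := by
  unfold bq qq
  rw [vec_two, vec_three]
  ring

lemma bp_add (i : Fin 4) (x y : Fin 4 → ℂ) : bp i (x + y) = bp i x + bp i y := by
  simp only [bp, Pi.add_apply]; ring
lemma bq_add (i : Fin 4) (x y : Fin 4 → ℂ) : bq i (x + y) = bq i x + bq i y := by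
  simp only [bq, Pi.add_apply]; ring
lemma bp_sub (i : Fin 4) (x y : Fin 4 → ℂ) : bp i (x - y) = bp i x - bp i y := by
  simp only [bp, Pi.sub_apply]; ring
lemma bq_sub (i : Fin 4) (x y : Fin 4 → ℂ) : bq i (x - y) = bq i x - bq i y := by
  simp only [bq, Pi.sub_apply]; ring
lemma bp_smul (i : Fin 4) (r : ℂ) (x : Fin 4 → ℂ) : bp i (r • x) = r * bp i x := by
  simp only [bp, Pi.smul_apply, smul_eq_mul]; ring
lemma bq_smul (i : Fin 4) (r : ℂ) (x : Fin 4 → ℂ) : bq i (r • x) = r * bq i x := by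
  simp only [bq, Pi.smul_apply, smul_eq_mul]; ring

lemma pp_self (i : Fin 4) : pp i i = 0 := by unfold pp; ring
lemma qq_self (i : Fin 4) : qq i i = 0 := by unfold qq; ring

/-- a vector `x` with `[x, p_i] = 0 = [x, q_i]` lies in the `i`-th line -/
lemma exists_vec {i : Fin 4} {x : Fin 4 → ℂ} (hp : bp i x = 0) (hq : bq i x = 0) :
    ∃ α β, x = vec i α β := by
  have h1 : ∃ α, x 0 = α * P1 i ∧ x 1 = α * P2 i := by
    unfold bp at hp
    by_cases h : P1 i = 0
    · have h' : P2 i ≠ 0 := fun h' => PP_ne i ⟨h, h'⟩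
      refine ⟨x 1 / P2 i, ?_, ?_⟩
      · rw [h, mul_zero]
        rw [h, mul_zero, sub_zero] at hp
        exact (mul_eq_zero.1 hp).resolve_right h'
      · rw [div_mul_cancel₀ _ h']
    · refine ⟨x 0 / P1 i, ?_, ?_⟩
      · rw [div_mul_cancel₀ _ h]
      · rw [div_mul_eq_mul_div, eq_div_iff h]
        linear_combination -hp
  have h2 : ∃ β, x 2 = β * Q1 i ∧ x 3 = β * Q2 i := by
    unfold bq at hq
    by_cases h : Q1 i = 0
    · have h' : Q2 i ≠ 0 := fun h' => QQ_ne i ⟨h, h'⟩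
      refine ⟨x 3 / Q2 i, ?_, ?_⟩
      · rw [h, mul_zero]
        rw [h, mul_zero, sub_zero] at hq
        exact (mul_eq_zero.1 hq).resolve_right h'
      · rw [div_mul_cancel₀ _ h']
    · refine ⟨x 2 / Q1 i, ?_, ?_⟩
      · rw [div_mul_cancel₀ _ h]
      · rw [div_mul_eq_mul_div, eq_div_iff h]
        linear_combination -hq
  obtain ⟨α, ha1, ha2⟩ := h1
  obtain ⟨β, hb1, hb2⟩ := h2
  refine ⟨α, β, ?_⟩
  ext k
  fin_cases k
  · exact ha1
  · exact ha2
  · exact hb1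
  · exact hb2

/-- the condition of generality on the centre of projection -/
def Good (c : ℂ) (P : Fin 4 → ℂ) : Prop :=
  ∀ i, bp i P ≠ 0 ∧ 1 * bp i P ^ 3 + bq i P ^ 3 ≠ 0 ∧ c * bp i P ^ 3 + bq i P ^ 3 ≠ 0

lemma independent {i j : Fin 4} {t t' l : ℂ}
    (h : vec i 1 t = l • vec j 1 t') : i = j ∧ t = t' := by
  have hij : i = j := by
    by_contra hij
    have h1 : bp j (vec i 1 t) = bp j (l • vec j 1 t') := by rw [h]
    rw [bp_smul, bp_vec, bp_vec, pp_self] at h1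
    simp only [one_mul, mul_zero] at h1
    exact pp_ne hij h1
  subst hij
  rw [vec_smul] at h
  obtain ⟨h1, h2⟩ := vec_inj h
  rw [mul_one] at h1
  rw [← h1, one_mul] at h2
  exact ⟨rfl, h2⟩

lemma independent' {c : ℂ} {P : Fin 4 → ℂ} (hP : Good c P) {i j : Fin 4}
    {t t' l m : ℂ} (ht' : t' ^ 3 = 1 ∨ t' ^ 3 = c)
    (h : vec i 1 t = l • vec j 1 t' + m • P) : i = j ∧ t = t' := by
  by_cases hm : m = 0
  · rw [hm, zero_smul, add_zero] at h
    exact independent h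
  exfalso
  have hPe : m • P = vec i 1 t - l • vec j 1 t' := by
    rw [h]
    abel
  have h1 : m * bp i P = -(l * pp j i) := by
    rw [← bp_smul, hPe, bp_sub, bp_smul, bp_vec, bp_vec, pp_self]
    ring
  have h2 : m * bq i P = -(l * t' * qq j i) := by
    rw [← bq_smul, hPe, bq_sub, bq_smul, bq_vec, bq_vec, qq_self]
    ring
  have h3 : m ^ 3 * (t' ^ 3 * bp i P ^ 3 + bq i P ^ 3) = 0 := by
    have e1 : m ^ 3 * (t' ^ 3 * bp i P ^ 3 + bq i P ^ 3) =
        t' ^ 3 * (m * bp i P) ^ 3 + (m * bq i P) ^ 3 := by ring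
    rw [e1, h1, h2]
    have := qq_cube j i
    linear_combination (-(l ^ 3 * t' ^ 3)) * this
  have h4 := (mul_eq_zero.1 h3).resolve_left (pow_ne_zero 3 hm)
  rcases ht' with ht | ht
  · rw [ht] at h4
    exact (hP i).2.1 h4
  · rw [ht] at h4
    exact (hP i).2.2 h4

/-! ## Counting -/

def Tset (c : ℂ) : Set ℂ := {t | t ^ 3 = 1 ∨ t ^ 3 = c}

lemma exists_cube_root (c : ℂ) : ∃ s : ℂ, s ^ 3 = c := by
  obtain ⟨s, hs⟩ := IsAlgClosed.exists_pow_nat_eq c (n := 3) (by norm_num)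
  exact ⟨s, hs⟩

lemma cube_eq {s t : ℂ} (h : t ^ 3 = s ^ 3) : t = s ∨ t = s * om ∨ t = s * om ^ 2 := by
  have h1 : (t - s) * ((t - s * om) * (t - s * om ^ 2)) = 0 := by
    have h2 := om_eq
    have h3 := om3
    linear_combination h - (t ^ 2 * s - t * s ^ 2 * (om - 0)) * h2 - s ^ 3 * h3
  rcases mul_eq_zero.1 h1 with h2 | h2
  · exact Or.inl (sub_eq_zero.1 h2)
  · rcases mul_eq_zero.1 h2 with h3 | h3
    · exact Or.inr (Or.inl (sub_eq_zero.1 h3))
    · exact Or.inr (Or.inr (sub_eq_zero.1 h3))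

lemma ncard_cube {c : ℂ} (hc : c ≠ 0) : {t : ℂ | t ^ 3 = c}.ncard = 3 := by
  obtain ⟨s, hs⟩ := exists_cube_root c
  have hs0 : s ≠ 0 := by
    rintro rfl
    apply hc
    rw [← hs]
    ring
  rw [Set.ncard_eq_three]
  refine ⟨s, s * om, s * om ^ 2, ?_, ?_, ?_, ?_⟩
  · intro h
    apply om_ne_one
    have : s * om = s * 1 := by rw [mul_one]; exact h.symm
    exact mul_left_cancel₀ hs0 this
  · intro h
    apply om_sq_ne_one
    have : s * om ^ 2 = s * 1 := by rw [mul_one]; exact h.symm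
    exact mul_left_cancel₀ hs0 this
  · intro h
    exact om_sq_ne (mul_left_cancel₀ hs0 h).symm
  · ext t
    simp only [Set.mem_ofPred_eq, Set.mem_insert_iff, Set.mem_singleton_iff]
    constructor
    · intro h
      exact cube_eq (h.trans hs.symm)
    · rintro (rfl | rfl | rfl)
      · exact hs
      · rw [mul_pow, om3, mul_one, hs]
      · rw [mul_pow, ← pow_mul, mul_comm 2 3, pow_mul, om3, one_pow, mul_one, hs]

lemma Tset_ncard {c : ℂ} (hc : c ≠ 0) (hc1 : c ≠ 1) : (Tset c).ncard = 6 := by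
  have h1 : Tset c = {t : ℂ | t ^ 3 = 1} ∪ {t : ℂ | t ^ 3 = c} := rfl
  have h2 := ncard_cube (one_ne_zero (α := ℂ))
  have h3 := ncard_cube hc
  rw [h1, Set.ncard_union_eq _ (Set.finite_of_ncard_ne_zero (by rw [h2]; norm_num))
    (Set.finite_of_ncard_ne_zero (by rw [h3]; norm_num)), h2, h3]
  rw [Set.disjoint_left]
  intro t ht1 ht2
  apply hc1
  rw [← (ht2 : t ^ 3 = c), (ht1 : t ^ 3 = 1)]

lemma span_eq_iff {V : Type*} [AddCommGroup V] [Module ℂ V] {v w : V}
    (h : Submodule.span ℂ {v} = Submodule.span ℂ {w}) : ∃ l : ℂ, v = l • w := by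
  have : v ∈ Submodule.span ℂ {w} := by
    rw [← h]
    exact Submodule.mem_span_singleton_self v
  obtain ⟨l, hl⟩ := Submodule.mem_span_singleton.1 this
  exact ⟨l, hl.symm⟩

/-- counting the images of the points of the configuration -/
lemma ncard_image {V : Type*} [AddCommGroup V] [Module ℂ V] {c : ℂ} (hc : c ≠ 0) (hc1 : c ≠ 1)
    (f : (Fin 4 → ℂ) →ₗ[ℂ] V) (hf0 : ∀ i t, t ∈ Tset c → f (vec i 1 t) ≠ 0)
    (hf : ∀ (i j : Fin 4) (t t' l : ℂ), t ∈ Tset c → t' ∈ Tset c → f (vec i 1 t) = l • f (vec j 1 t') →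
      i = j ∧ t = t') :
    {q : ℙ ℂ V | ∃ i t, t ∈ Tset c ∧ q.submodule = Submodule.span ℂ {f (vec i 1 t)}}.ncard = 24 := by
  have h6 := Tset_ncard hc hc1
  have hTf : (Tset c).Finite := Set.finite_of_ncard_ne_zero (by rw [h6]; norm_num)
  have key : ∀ x : Fin 4 × ℂ, ∃ q : ℙ ℂ V, x.2 ∈ Tset c →
      q.submodule = Submodule.span ℂ {f (vec x.1 1 x.2)} := by
    intro x
    by_cases hx : x.2 ∈ Tset c
    · exact ⟨Projectivization.mk ℂ _ (hf0 x.1 x.2 hx), fun _ => Projectivization.submodule_mk _ _⟩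
    · have h1 : (1 : ℂ) ∈ Tset c := Or.inl (by norm_num)
      exact ⟨Projectivization.mk ℂ _ (hf0 x.1 1 h1), fun h => absurd h hx⟩
  choose g hg using key
  have himg : {q : ℙ ℂ V | ∃ i t, t ∈ Tset c ∧ q.submodule = Submodule.span ℂ {f (vec i 1 t)}} =
      g '' ((Set.univ : Set (Fin 4)) ×ˢ Tset c) := by
    ext q
    constructor
    · rintro ⟨i, t, ht, hq⟩
      refine ⟨(i, t), ⟨Set.mem_univ _, ht⟩, ?_⟩
      apply Projectivization.submodule_injective
      rw [hq, hg (i, t) ht]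
    · rintro ⟨⟨i, t⟩, ⟨-, ht⟩, rfl⟩
      exact ⟨i, t, ht, hg (i, t) ht⟩
  have hinj : Set.InjOn g ((Set.univ : Set (Fin 4)) ×ˢ Tset c) := by
    rintro ⟨i, t⟩ ⟨-, ht⟩ ⟨j, t'⟩ ⟨-, ht'⟩ h
    have h1 := hg (i, t) ht
    have h2 := hg (j, t') ht'
    rw [h, h2] at h1
    obtain ⟨l, hl⟩ := span_eq_iff h1.symm
    obtain ⟨h3, h4⟩ := hf i j t t' l ht ht' hl
    rw [h3, h4]
  rw [himg, hinj.ncard_image, Set.ncard_prod, h6, Set.ncard_univ, Nat.card_fin]

lemma config_eq (c : ℂ) : config c = {q : ℙ ℂ (Fin 4 → ℂ) | ∃ i t, t ∈ Tset c ∧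
    q.submodule = Submodule.span ℂ {(LinearMap.id : (Fin 4 → ℂ) →ₗ[ℂ] (Fin 4 → ℂ)) (vec i 1 t)}} :=
  rfl

lemma config_ncard {c : ℂ} (hc : c ≠ 0) (hc1 : c ≠ 1) : (config c).ncard = 24 := by
  rw [config_eq]
  apply ncard_image hc hc1
  · intro i t _
    exact vec_ne_zero one_ne_zero
  · intro i j t t' l _ _ h
    exact independent h

lemma projImage_config {c : ℂ} (π : (Fin 4 → ℂ) →ₗ[ℂ] (Fin 3 → ℂ)) :
    projImage π (config c) = {q : ℙ ℂ (Fin 3 → ℂ) | ∃ i t, t ∈ Tset c ∧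
      q.submodule = Submodule.span ℂ {π (vec i 1 t)}} := by
  ext q
  constructor
  · rintro ⟨p, ⟨i, t, ht, hp⟩, hq⟩
    refine ⟨i, t, ht, ?_⟩
    rw [hq, hp, Submodule.map_span, Set.image_singleton]
  · rintro ⟨i, t, ht, hq⟩
    refine ⟨Projectivization.mk ℂ (vec i 1 t) (vec_ne_zero one_ne_zero), ⟨i, t, ht, ?_⟩, ?_⟩
    · exact Projectivization.submodule_mk _ _
    · rw [hq, Projectivization.submodule_mk, Submodule.map_span, Set.image_singleton]

lemma mem_ker {π : (Fin 4 → ℂ) →ₗ[ℂ] (Fin 3 → ℂ)} {P : Fin 4 → ℂ}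
    (hk : LinearMap.ker π = Submodule.span ℂ {P}) {x y : Fin 4 → ℂ} (h : π x = π y) :
    ∃ m : ℂ, x = y + m • P := by
  have h1 : x - y ∈ LinearMap.ker π := by
    rw [LinearMap.mem_ker, map_sub, h, sub_self]
  rw [hk] at h1
  obtain ⟨m, hm⟩ := Submodule.mem_span_singleton.1 h1
  exact ⟨m, by rw [hm]; abel⟩

lemma π_ne_zero {π : (Fin 4 → ℂ) →ₗ[ℂ] (Fin 3 → ℂ)} {P : Fin 4 → ℂ} {c : ℂ} (hP : Good c P)
    (hk : LinearMap.ker π = Submodule.span ℂ {P}) (i : Fin 4) (t : ℂ) : π (vec i 1 t) ≠ 0 := by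
  intro h
  rw [← map_zero π] at h
  obtain ⟨m, hm⟩ := mem_ker hk h
  rw [zero_add] at hm
  have h1 : bp i (vec i 1 t) = m * bp i P := by rw [hm, bp_smul]
  rw [bp_vec, pp_self, mul_zero] at h1
  have hm0 : m = 0 := (mul_eq_zero.1 h1.symm).resolve_right (hP i).1
  rw [hm0, zero_smul] at hm
  exact vec_ne_zero one_ne_zero hm

lemma projImage_ncard {c : ℂ} (hc : c ≠ 0) (hc1 : c ≠ 1)
    {π : (Fin 4 → ℂ) →ₗ[ℂ] (Fin 3 → ℂ)} {P : Fin 4 → ℂ} (hP : Good c P)
    (hk : LinearMap.ker π = Submodule.span ℂ {P}) : (projImage π (config c)).ncard = 24 := by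
  rw [projImage_config]
  apply ncard_image hc hc1
  · intro i t _
    exact π_ne_zero hP hk i t
  · intro i j t t' l _ ht' h
    rw [← map_smul] at h
    obtain ⟨m, hm⟩ := mem_ker hk h
    exact independent' hP ht' hm

/-! ## The forms -/

section forms

/-- the `k`-th coordinate of a linear section -/
noncomputable def lf (σ : (Fin 3 → ℂ) →ₗ[ℂ] (Fin 4 → ℂ)) (k : Fin 4) : MvPolynomial (Fin 3) ℂ :=
  ∑ j, C (σ (Pi.single j 1) k) * X j

variable (σ : (Fin 3 → ℂ) →ₗ[ℂ] (Fin 4 → ℂ)) (P : Fin 4 → ℂ)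

lemma lf_eval (k : Fin 4) (y : Fin 3 → ℂ) : eval y (lf σ k) = σ y k := by
  unfold lf
  rw [map_sum]
  conv_rhs => rw [pi_eq_sum_univ' y, map_sum, Finset.sum_apply]
  refine Finset.sum_congr rfl fun j _ => ?_
  simp [map_smul, mul_comm]

lemma lf_hom (k : Fin 4) : (lf σ k).IsHomogeneous 1 := by
  unfold lf
  apply IsHomogeneous.sum
  intro j _
  have := (isHomogeneous_C (Fin 3) (σ (Pi.single j 1) k)).mul (isHomogeneous_X ℂ j)
  simpa using this

/-- the plane spanned by `P` and the `i`-th line -/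
noncomputable def lam (i : Fin 4) : MvPolynomial (Fin 3) ℂ :=
  (C (P2 i) * lf σ 0 - C (P1 i) * lf σ 1) * C (bq i P) -
    (C (Q2 i) * lf σ 2 - C (Q1 i) * lf σ 3) * C (bp i P)

lemma lam_eval (i : Fin 4) (y : Fin 3 → ℂ) :
    eval y (lam σ P i) = bp i (σ y) * bq i P - bq i (σ y) * bp i P := by
  simp only [lam, map_sub, map_mul, eval_C, lf_eval, bp, bq]
  ring

lemma lam_hom (i : Fin 4) : (lam σ P i).IsHomogeneous 1 := by
  have h : ∀ (a : ℂ) (k : Fin 4), (C a * lf σ k).IsHomogeneous 1 := fun a k => by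
    have := (isHomogeneous_C (Fin 3) a).mul (lf_hom σ k)
    simpa using this
  have h2 : ∀ (a : ℂ) (f : MvPolynomial (Fin 3) ℂ), f.IsHomogeneous 1 →
      (f * C a).IsHomogeneous 1 := fun a f hf => by
    have := hf.mul (isHomogeneous_C (Fin 3) a)
    simpa using this
  exact (h2 _ _ ((h _ _).sub (h _ _))).sub (h2 _ _ ((h _ _).sub (h _ _)))

/-- the cubic -/
noncomputable def GamP (c : ℂ) : MvPolynomial (Fin 3) ℂ :=
  Gam (C c) (C (P 0)) (C (P 1)) (C (P 2)) (C (P 3)) (lf σ 0) (lf σ 1) (lf σ 2) (lf σ 3)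

lemma GamP_eval (c : ℂ) (y : Fin 3 → ℂ) : eval y (GamP σ P c) = gam c P (σ y) := by
  simp only [GamP, gam, Gam, map_sub, map_mul, map_add, map_pow, eval_C, lf_eval, map_ofNat]

lemma GamP_hom (c : ℂ) : (GamP σ P c).IsHomogeneous 3 := by
  have hC : ∀ a : ℂ, (C a : MvPolynomial (Fin 3) ℂ).IsHomogeneous 0 := isHomogeneous_C (Fin 3)
  have hw : ∀ a b : ℂ, ∀ k l : Fin 4, (C a * lf σ k - lf σ l * C b).IsHomogeneous 1 :=
    fun a b k l => by
      have h1 := (hC a).mul (lf_hom σ k)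
      have h2 := (lf_hom σ l).mul (hC b)
      rw [zero_add] at h1
      rw [add_zero] at h2
      exact h1.sub h2
  have hw' : ∀ a b : ℂ, ∀ k l : Fin 4, (C a * lf σ k - C b * lf σ l).IsHomogeneous 1 :=
    fun a b k l => by
      have h1 := (hC a).mul (lf_hom σ k)
      have h2 := (hC b).mul (lf_hom σ l)
      rw [zero_add] at h1 h2
      exact h1.sub h2
  have h2 : (2 : MvPolynomial (Fin 3) ℂ).IsHomogeneous 0 := by
    have := hC 2
    rwa [map_ofNat] at this
  have h4 : (4 : MvPolynomial (Fin 3) ℂ).IsHomogeneous 0 := by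
    have := hC 4
    rwa [map_ofNat] at this
  have hmul0 : ∀ {f g : MvPolynomial (Fin 3) ℂ} {n : ℕ}, f.IsHomogeneous 0 → g.IsHomogeneous n →
      (f * g).IsHomogeneous n := fun hf hg => by
    have := hf.mul hg
    rwa [zero_add] at this
  have hc2 : ((C c : MvPolynomial (Fin 3) ℂ) ^ 2).IsHomogeneous 0 := by
    have := (hC c).pow 2
    simpa using this
  have hpow : ∀ {f : MvPolynomial (Fin 3) ℂ}, f.IsHomogeneous 1 → (f ^ 3).IsHomogeneous 3 :=
    fun hf => by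
      have := hf.pow 3
      simpa using this
  unfold GamP Gam
  refine (((hmul0 (hC c) ?_).add (hpow (hw' _ _ _ _))).sub (hmul0 hc2 (hpow (hw' _ _ _ _)))).add ?_
  · refine (((hmul0 h2 (hpow (hw _ _ _ _))).sub (hpow (hw _ _ _ _))).sub (hpow (hw _ _ _ _))).sub ?_
    exact ((hw _ _ _ _).sub (hw _ _ _ _)).mul (n := 2) (((hw _ _ _ _).mul (hw _ _ _ _)).add
      (hmul0 h2 ((hw _ _ _ _).mul (hw _ _ _ _))))
  · exact ((hmul0 (hC c) (hw' _ _ _ _)).mul (hw' _ _ _ _)).mul (m := 2) (n := 1)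
      ((hmul0 h4 (hw _ _ _ _)).add (hmul0 h2 (hw _ _ _ _)))

end forms

lemma qq_ne {i j : Fin 4} (h : i ≠ j) : qq i j ≠ 0 := by
  intro h0
  have := qq_cube i j
  rw [h0] at this
  apply pp_ne h
  have h1 : pp i j ^ 3 = 0 := by linear_combination this
  exact pow_eq_zero_iff (by norm_num) |>.1 h1

lemma exists_ne (i : Fin 4) : ∃ j : Fin 4, j ≠ i := by
  fin_cases i
  · exact ⟨1, by decide⟩
  · exact ⟨0, by decide⟩
  · exact ⟨0, by decide⟩
  · exact ⟨0, by decide⟩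

section
variable {c : ℂ} {P : Fin 4 → ℂ} {π : (Fin 4 → ℂ) →ₗ[ℂ] (Fin 3 → ℂ)}
  {σ : (Fin 3 → ℂ) →ₗ[ℂ] (Fin 4 → ℂ)}

lemma σπ (hk : LinearMap.ker π = Submodule.span ℂ {P}) (hσ : π ∘ₗ σ = LinearMap.id)
    (x : Fin 4 → ℂ) : ∃ m : ℂ, σ (π x) = x + m • P := by
  apply mem_ker hk
  have := LinearMap.congr_fun hσ (π x)
  exact this

lemma lam_eval_π (hk : LinearMap.ker π = Submodule.span ℂ {P}) (hσ : π ∘ₗ σ = LinearMap.id)
    (i j : Fin 4) (α β : ℂ) : eval (π (vec j α β)) (lam σ P i) =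
      α * pp j i * bq i P - β * qq j i * bp i P := by
  obtain ⟨m, hm⟩ := σπ hk hσ (vec j α β)
  rw [lam_eval, hm, bp_add, bq_add, bp_smul, bq_smul, bp_vec, bq_vec]
  ring

lemma GamP_eval_π (hk : LinearMap.ker π = Submodule.span ℂ {P}) (hσ : π ∘ₗ σ = LinearMap.id)
    (i : Fin 4) (c α β : ℂ) : eval (π (vec i α β)) (GamP σ P c) =
      (β ^ 3 - c * α ^ 3) * (c * bp i P ^ 3 + bq i P ^ 3) := by
  obtain ⟨m, hm⟩ := σπ hk hσ (vec i α β)
  rw [GamP_eval, hm, gam_vec]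

lemma lam_ne_zero (hP : Good c P) (hk : LinearMap.ker π = Submodule.span ℂ {P})
    (hσ : π ∘ₗ σ = LinearMap.id) (i : Fin 4) : lam σ P i ≠ 0 := by
  intro h
  obtain ⟨j, hj⟩ := exists_ne i
  have h1 := lam_eval_π hk hσ i j 0 1
  rw [h, map_zero] at h1
  apply mul_ne_zero (qq_ne hj) (hP i).1
  linear_combination h1

lemma lam_irreducible (hP : Good c P) (hk : LinearMap.ker π = Submodule.span ℂ {P})
    (hσ : π ∘ₗ σ = LinearMap.id) (i : Fin 4) : Irreducible (lam σ P i) := by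
  have h0 := lam_ne_zero hP hk hσ i
  apply irreducible_of_totalDegree_eq_one ((lam_hom σ P i).totalDegree h0)
  intro x hx
  rw [isUnit_iff_ne_zero]
  rintro rfl
  apply h0
  ext n
  rw [coeff_zero]
  exact zero_dvd_iff.1 (hx n)

lemma relPrime (hc : c ≠ 0) (hP : Good c P) (hk : LinearMap.ker π = Submodule.span ℂ {P})
    (hσ : π ∘ₗ σ = LinearMap.id) :
    IsRelPrime (∏ i, lam σ P i) (GamP σ P 1 * GamP σ P c) := by
  apply IsRelPrime.prod_left
  intro i _
  rw [(lam_irreducible hP hk hσ i).isRelPrime_iff_not_dvd]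
  rintro ⟨H, hH⟩
  have h1 := congrArg (eval (π (vec i 1 0))) hH
  rw [map_mul, map_mul, lam_eval_π hk hσ, GamP_eval_π hk hσ, GamP_eval_π hk hσ, pp_self] at h1
  have h2 := mul_ne_zero hc (mul_ne_zero (hP i).2.1 (hP i).2.2)
  apply h2
  linear_combination h1

lemma subset_locus (hk : LinearMap.ker π = Submodule.span ℂ {P})
    (hσ : π ∘ₗ σ = LinearMap.id) : projImage π (config c) ⊆
      zeroLocus (∏ i, lam σ P i) ∩ zeroLocus (GamP σ P 1 * GamP σ P c) := by
  rw [projImage_config]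
  rintro q ⟨i, t, ht, hq⟩
  have key : ∀ v ∈ q.submodule, ∃ r : ℂ, v = π (vec i r (r * t)) := by
    intro v hv
    rw [hq] at hv
    obtain ⟨r, hr⟩ := Submodule.mem_span_singleton.1 hv
    refine ⟨r, ?_⟩
    rw [← hr, ← map_smul, vec_smul, mul_one]
  constructor
  · intro v hv
    obtain ⟨r, rfl⟩ := key v hv
    rw [map_prod]
    apply Finset.prod_eq_zero (Finset.mem_univ i)
    rw [lam_eval_π hk hσ, pp_self, qq_self]
    ring
  · intro v hv
    obtain ⟨r, rfl⟩ := key v hv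
    rw [map_mul, GamP_eval_π hk hσ, GamP_eval_π hk hσ]
    rcases ht with ht | ht
    · rw [mul_pow, ht]
      ring
    · rw [mul_pow, ht]
      ring

lemma locus_subset (hP : Good c P) (hk : LinearMap.ker π = Submodule.span ℂ {P})
    (hσ : π ∘ₗ σ = LinearMap.id) :
      zeroLocus (∏ i, lam σ P i) ∩ zeroLocus (GamP σ P 1 * GamP σ P c) ⊆
        projImage π (config c) := by
  rw [projImage_config]
  rintro q ⟨hq1, hq2⟩
  have hrep : q.rep ∈ q.submodule := by
    rw [Projectivization.submodule_eq]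
    exact Submodule.mem_span_singleton_self _
  have h1 := hq1 _ hrep
  have h2 := hq2 _ hrep
  have hne := q.rep_nonzero
  have hπσ : π (σ q.rep) = q.rep := LinearMap.congr_fun hσ q.rep
  have hPk : π P = 0 := by
    have : P ∈ LinearMap.ker π := by
      rw [hk]
      exact Submodule.mem_span_singleton_self _
    exact this
  rw [map_prod, Finset.prod_eq_zero_iff] at h1
  obtain ⟨i, -, hi⟩ := h1
  rw [lam_eval] at hi
  set x := σ q.rep with hx
  have hb := (hP i).1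
  set a := bp i x / bp i P with ha
  have hp0 : bp i (x - a • P) = 0 := by
    rw [bp_sub, bp_smul, ha, div_mul_cancel₀ _ hb, sub_self]
  have hq0 : bq i (x - a • P) = 0 := by
    rw [bq_sub, bq_smul, ha, div_mul_eq_mul_div, sub_eq_zero, eq_div_iff hb]
    linear_combination -hi
  obtain ⟨α, β, hv⟩ := exists_vec hp0 hq0
  have hxe : x = vec i α β + a • P := by
    rw [← hv]
    abel
  have hqe : q.rep = π (vec i α β) := by
    rw [← hπσ, hxe, map_add, map_smul, hPk, smul_zero, add_zero]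
  rw [map_mul, GamP_eval, GamP_eval, ← hx, hxe, gam_vec, gam_vec] at h2
  have h3 : β ^ 3 = 1 * α ^ 3 ∨ β ^ 3 = c * α ^ 3 := by
    rcases mul_eq_zero.1 h2 with h | h
    · exact Or.inl (sub_eq_zero.1 ((mul_eq_zero.1 h).resolve_right (hP i).2.1))
    · exact Or.inr (sub_eq_zero.1 ((mul_eq_zero.1 h).resolve_right (hP i).2.2))
  have hα : α ≠ 0 := by
    intro h0
    have hβ : β = 0 := by
      have : β ^ 3 = 0 := by
        rcases h3 with h | h <;> rw [h, h0] <;> ring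
      exact pow_eq_zero_iff (by norm_num) |>.1 this
    apply hne
    rw [hqe, h0, hβ]
    have : vec i 0 0 = 0 := by
      ext k
      fin_cases k <;> simp [vec]
    rw [this, map_zero]
  refine ⟨i, β / α, ?_, ?_⟩
  · rcases h3 with h | h
    · left
      rw [div_pow, h, one_mul, div_self (pow_ne_zero 3 hα)]
    · right
      rw [div_pow, h, mul_div_assoc, div_self (pow_ne_zero 3 hα), mul_one]
  · rw [Projectivization.submodule_eq, hqe]
    have : vec i α β = α • vec i 1 (β / α) := by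
      rw [vec_smul, mul_one, mul_div_cancel₀ _ hα]
    rw [this, map_smul]
    exact Submodule.span_singleton_smul_eq (isUnit_iff_ne_zero.2 hα) _

end

/-- the polynomial defining the special centres of projection -/
noncomputable def Phi (c : ℂ) : MvPolynomial (Fin 4) ℂ :=
  ∏ i, ((X 0 * C (P2 i) - X 1 * C (P1 i)) *
    ((1 * (X 0 * C (P2 i) - X 1 * C (P1 i)) ^ 3 + (X 2 * C (Q2 i) - X 3 * C (Q1 i)) ^ 3) *
     (C c * (X 0 * C (P2 i) - X 1 * C (P1 i)) ^ 3 + (X 2 * C (Q2 i) - X 3 * C (Q1 i)) ^ 3)))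

lemma Phi_eval (c : ℂ) (P : Fin 4 → ℂ) : eval P (Phi c) =
    ∏ i, (bp i P * ((1 * bp i P ^ 3 + bq i P ^ 3) * (c * bp i P ^ 3 + bq i P ^ 3))) := by
  simp [Phi, bp, bq, map_prod]

lemma good_of_Phi {c : ℂ} {P : Fin 4 → ℂ} (h : eval P (Phi c) ≠ 0) : Good c P := by
  intro i
  rw [Phi_eval, Finset.prod_ne_zero_iff] at h
  have h1 := h i (Finset.mem_univ i)
  exact ⟨left_ne_zero_of_mul h1, left_ne_zero_of_mul (right_ne_zero_of_mul h1),
    right_ne_zero_of_mul (right_ne_zero_of_mul h1)⟩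

lemma Phi_ne_zero {c : ℂ} (hc : c ≠ 0) : Phi c ≠ 0 := by
  unfold Phi
  rw [Finset.prod_ne_zero_iff]
  intro i _ h
  obtain ⟨j, hj⟩ := exists_ne i
  have h1 := congrArg (eval (vec j 1 0)) h
  have h2 : bp i (vec j 1 0) ≠ 0 := by
    rw [bp_vec, one_mul]
    exact pp_ne hj
  have h3 : bq i (vec j 1 0) = 0 := by
    rw [bq_vec, zero_mul]
  have h4 : bp i (vec j 1 0) * ((1 * bp i (vec j 1 0) ^ 3 + bq i (vec j 1 0) ^ 3) *
      (c * bp i (vec j 1 0) ^ 3 + bq i (vec j 1 0) ^ 3)) = 0 := by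
    simpa [bp, bq] using h1
  rw [h3] at h4
  have h5 : c * bp i (vec j 1 0) ^ 7 = 0 := by linear_combination h4
  exact mul_ne_zero hc (pow_ne_zero 7 h2) h5

theorem geproci {c : ℂ} (hc : c ≠ 0) (hc1 : c ≠ 1) : IsGeproci 4 6 (config c) := by
  refine ⟨Set.finite_of_ncard_ne_zero (by rw [config_ncard hc hc1]; norm_num),
    config_ncard hc hc1, Phi c, Phi_ne_zero hc, ?_⟩
  intro P hPhi π hsurj hk
  have hP := good_of_Phi hPhi
  obtain ⟨σ, hσ⟩ := π.exists_rightInverse_of_surjective (LinearMap.range_eq_top.2 hsurj)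
  refine ⟨∏ i, lam σ P i, GamP σ P 1 * GamP σ P c, ?_, ?_, relPrime hc hP hk hσ,
    Set.Subset.antisymm (subset_locus hk hσ) (locus_subset hP hk hσ),
    projImage_ncard hc hc1 hP hk⟩
  · have := IsHomogeneous.prod Finset.univ (fun i => lam σ P i) (fun _ => 1)
      (fun i _ => lam_hom σ P i)
    simpa using this
  · exact (GamP_hom σ P 1).mul (GamP_hom σ P c)

/-! ## Nondegeneracy -/

/-- the `i`-th line -/
noncomputable def Line (i : Fin 4) : Submodule ℂ (Fin 4 → ℂ) :=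
  Submodule.span ℂ {vec i 1 0, vec i 0 1}

lemma mem_Line {i : Fin 4} {x : Fin 4 → ℂ} : x ∈ Line i ↔ ∃ α β, x = vec i α β := by
  unfold Line
  rw [Submodule.mem_span_pair]
  constructor
  · rintro ⟨a, b, h⟩
    refine ⟨a, b, ?_⟩
    rw [← h, vec_smul, vec_smul, vec_add]
    simp
  · rintro ⟨a, b, h⟩
    refine ⟨a, b, ?_⟩
    rw [h, vec_smul, vec_smul, vec_add]
    simp

lemma vec_zero_one_ne (i : Fin 4) : vec i 0 1 ≠ 0 := by
  intro h
  have h1 : vec i 0 1 = vec i 0 0 := by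
    rw [h]
    ext k
    fin_cases k <;> simp [vec]
  exact one_ne_zero (vec_inj h1).2

lemma Line_finrank (i : Fin 4) : finrank ℂ (Line i) = 2 := by
  have hli : LinearIndependent ℂ ![vec i 1 0, vec i 0 1] := by
    rw [LinearIndependent.pair_iff]
    intro s t h
    rw [vec_smul, vec_smul, vec_add] at h
    have h1 : vec i (s * 1 + t * 0) (s * 0 + t * 1) = vec i 0 0 := by
      rw [h]
      ext k
      fin_cases k <;> simp [vec]
    obtain ⟨h2, h3⟩ := vec_inj h1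
    constructor
    · simpa using h2
    · simpa using h3
  have := finrank_span_eq_card hli
  have hr : Set.range ![vec i 1 0, vec i 0 1] = {vec i 1 0, vec i 0 1} := by
    rw [Matrix.range_cons, Matrix.range_cons, Matrix.range_empty, Set.union_empty,
      Set.singleton_union]
  rw [hr, Fintype.card_fin] at this
  exact this

/-- a plane containing two points of each of two lines is everything; so `config` spans -/
lemma vec_mem_of_two {H : Submodule ℂ (Fin 4 → ℂ)} {i : Fin 4} {t t' : ℂ} (htt : t ≠ t')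
    (h1 : vec i 1 t ∈ H) (h2 : vec i 1 t' ∈ H) (α β : ℂ) : vec i α β ∈ H := by
  have h3 : t - t' ≠ 0 := sub_ne_zero.2 htt
  have : vec i α β = ((β - α * t') / (t - t')) • vec i 1 t + ((α * t - β) / (t - t')) • vec i 1 t' := by
    rw [vec_smul, vec_smul, vec_add]
    congr 1
    · field_simp
      ring
    · field_simp
      ring
  rw [this]
  exact H.add_mem (H.smul_mem _ h1) (H.smul_mem _ h2)

lemma Line_le_of_two {H : Submodule ℂ (Fin 4 → ℂ)} {i : Fin 4} {t t' : ℂ} (htt : t ≠ t')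
    (h1 : vec i 1 t ∈ H) (h2 : vec i 1 t' ∈ H) : Line i ≤ H := by
  intro x hx
  obtain ⟨α, β, rfl⟩ := mem_Line.1 hx
  exact vec_mem_of_two htt h1 h2 α β

lemma Line_disjoint {i j : Fin 4} (h : i ≠ j) : Disjoint (Line i) (Line j) := by
  rw [Submodule.disjoint_def]
  intro x hi hj
  obtain ⟨α, β, rfl⟩ := mem_Line.1 hi
  obtain ⟨α', β', he⟩ := mem_Line.1 hj
  have h1 : bp j (vec i α β) = bp j (vec j α' β') := by rw [he]
  have h2 : bq j (vec i α β) = bq j (vec j α' β') := by rw [he]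
  rw [bp_vec, bp_vec, pp_self, mul_zero] at h1
  rw [bq_vec, bq_vec, qq_self, mul_zero] at h2
  have h3 := (mul_eq_zero.1 h1).resolve_right (pp_ne h)
  have h4 := (mul_eq_zero.1 h2).resolve_right (qq_ne h)
  rw [h3, h4]
  ext k
  fin_cases k <;> simp [vec]

lemma pt_mem {c : ℂ} (i : Fin 4) {t : ℂ} (ht : t ∈ Tset c) :
    Projectivization.mk ℂ (vec i 1 t) (vec_ne_zero one_ne_zero) ∈ config c :=
  ⟨i, t, ht, Projectivization.submodule_mk _ _⟩

lemma vec_mem_of_le {c : ℂ} {H : Submodule ℂ (Fin 4 → ℂ)} (h : ∀ p ∈ config c, p.submodule ≤ H)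
    (i : Fin 4) {t : ℂ} (ht : t ∈ Tset c) : vec i 1 t ∈ H := by
  have h1 := h _ (pt_mem i ht)
  rw [Projectivization.submodule_mk] at h1
  exact h1 (Submodule.mem_span_singleton_self _)

lemma one_mem (c : ℂ) : (1 : ℂ) ∈ Tset c := Or.inl (by norm_num)
lemma om_mem (c : ℂ) : om ∈ Tset c := Or.inl om3
lemma om2_mem (c : ℂ) : om ^ 2 ∈ Tset c :=
  Or.inl (by rw [← pow_mul, mul_comm, pow_mul, om3, one_pow])

lemma not_degenerate (c : ℂ) : ¬ IsDegenerate (config c) := by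
  rintro ⟨H, hH, hle⟩
  have h0 : Line 0 ≤ H := Line_le_of_two om_ne_one (vec_mem_of_le hle 0 (om_mem c))
    (vec_mem_of_le hle 0 (one_mem c))
  have h3 : Line 3 ≤ H := Line_le_of_two om_ne_one (vec_mem_of_le hle 3 (om_mem c))
    (vec_mem_of_le hle 3 (one_mem c))
  have h4 : finrank ℂ ↥(Line 0 ⊔ Line 3) + finrank ℂ ↥(Line 0 ⊓ Line 3) =
      finrank ℂ (Line 0) + finrank ℂ (Line 3) := Submodule.finrank_sup_add_finrank_inf_eq _ _
  have h5 : Line 0 ⊓ Line 3 = ⊥ := disjoint_iff.1 (Line_disjoint (by decide))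
  rw [h5, finrank_bot, Line_finrank, Line_finrank] at h4
  have h6 := Submodule.finrank_mono (sup_le h0 h3)
  omega

/-! ## Lines with at least four points -/

/-- no transversal contains four points -/
lemma no_transversal {H : Submodule ℂ (Fin 4 → ℂ)} (hH : finrank ℂ H = 2) {t : Fin 4 → ℂ}
    (ht : t 0 ≠ 0) (h : ∀ i, vec i 1 (t i) ∈ H) : False := by
  -- a vector of `H` with vanishing first half is zero
  have key : ∀ w ∈ H, w 0 = 0 → w 1 = 0 → w = 0 := by
    let f : H →ₗ[ℂ] (Fin 2 → ℂ) := (LinearMap.funLeft ℂ ℂ ![(0 : Fin 4), 1]) ∘ₗ H.subtype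
    have hs : Function.Surjective f := by
      intro y
      refine ⟨⟨y 0 • vec 0 1 (t 0) + (y 1 - y 0) • vec 3 1 (t 3),
        H.add_mem (H.smul_mem _ (h 0)) (H.smul_mem _ (h 3))⟩, ?_⟩
      ext k
      fin_cases k
      · simp [f, LinearMap.funLeft_apply, vec, P1]
      · simp [f, LinearMap.funLeft_apply, vec, P2]
    have hi : Function.Injective f :=
      (LinearMap.injective_iff_surjective_of_finrank_eq_finrank (by rw [hH]; simp)).2 hs
    intro w hw h0 h1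
    have h2 : f ⟨w, hw⟩ = f 0 := by
      ext k
      fin_cases k
      · simpa [f, LinearMap.funLeft_apply] using h0
      · simpa [f, LinearMap.funLeft_apply] using h1
    have h3 := hi h2
    exact congrArg Subtype.val h3
  have w1 := key ((om - 1) • vec 3 1 (t 3) + vec 0 1 (t 0) - vec 1 1 (t 1))
    (H.sub_mem (H.add_mem (H.smul_mem _ (h 3)) (h 0)) (h 1))
    (by simp [vec, P1]) (by simp [vec, P2])
  have w2 := key ((om ^ 2 - 1) • vec 3 1 (t 3) + vec 0 1 (t 0) - vec 2 1 (t 2))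
    (H.sub_mem (H.add_mem (H.smul_mem _ (h 3)) (h 0)) (h 2))
    (by simp [vec, P1]) (by simp [vec, P2])
  have a1 := congrFun w1 2
  have a2 := congrFun w1 3
  have b1 := congrFun w2 2
  have b2 := congrFun w2 3
  simp [vec, Q1, Q2] at a1 a2 b1 b2
  have h1 : (1 - om) ^ 2 * t 0 = 0 := by
    have := om_eq
    grind
  exact (mul_ne_zero (pow_ne_zero 2 (sub_ne_zero.2 om_ne_one.symm)) ht) h1

lemma Tset_ne_zero {c : ℂ} (hc : c ≠ 0) {t : ℂ} (ht : t ∈ Tset c) : t ≠ 0 := by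
  rintro rfl
  rcases ht with h | h
  · norm_num at h
  · apply hc
    rw [← h]
    norm_num

lemma line_of_four {c : ℂ} (hc : c ≠ 0) {L : Submodule ℂ (Fin 4 → ℂ)} (hL : finrank ℂ L = 2)
    (x : Fin 4 → ℙ ℂ (Fin 4 → ℂ)) (hx : Function.Injective x) (hmem : ∀ k, x k ∈ config c)
    (hle : ∀ k, (x k).submodule ≤ L) : ∃ i, L = Line i := by
  choose i t ht hi using hmem
  have hv : ∀ k, vec (i k) 1 (t k) ∈ L := by
    intro k
    have := hle k
    rw [hi k] at this
    exact this (Submodule.mem_span_singleton_self _)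
  by_cases hinj : Function.Injective i
  · exfalso
    obtain ⟨e, he⟩ := (Finite.injective_iff_surjective.1 hinj).hasRightInverse
    apply no_transversal hL (t := fun j => t (e j)) (Tset_ne_zero hc (ht _))
    intro j
    have := hv (e j)
    rwa [he j] at this
  · rw [Function.Injective] at hinj
    push Not at hinj
    obtain ⟨k, l, hkl, hne⟩ := hinj
    have htt : t k ≠ t l := by
      intro h
      apply hne
      apply hx
      apply Projectivization.submodule_injective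
      rw [hi k, hi l, hkl, h]
    have h1 := hv k
    have h2 := hv l
    rw [← hkl] at h2
    refine ⟨i k, (Submodule.eq_of_le_of_finrank_eq (Line_le_of_two htt h1 h2) ?_).symm⟩
    rw [hL, Line_finrank]

lemma grid_lines {c : ℂ} (hc : c ≠ 0) {a b : ℕ} {L : Fin a → Submodule ℂ (Fin 4 → ℂ)}
    {M : Fin b → Submodule ℂ (Fin 4 → ℂ)} (hL : ∀ i, finrank ℂ (L i) = 2)
    (hMd : ∀ j j', j ≠ j' → Disjoint (M j) (M j'))
    (hLM : ∀ i j, finrank ℂ ↥(L i ⊓ M j) = 1)
    (hmem : ∀ i j, ∀ p : ℙ ℂ (Fin 4 → ℂ), p.submodule = L i ⊓ M j → p ∈ config c) (hb : 4 ≤ b)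
    (i : Fin a) : ∃ k, L i = Line k := by
  apply line_of_four hc (hL i)
    (fun k => Projectivization.mk'' (L i ⊓ M (Fin.castLE hb k)) (hLM i _))
  · intro k l hkl
    by_contra hne
    have h1 := congrArg Projectivization.submodule hkl
    simp only [Projectivization.submodule_mk''] at h1
    have h2 : Disjoint (M (Fin.castLE hb k)) (M (Fin.castLE hb l)) :=
      hMd _ _ fun h => hne (Fin.castLE_injective hb h)
    have h3 : L i ⊓ M (Fin.castLE hb k) ≤ ⊥ := by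
      rw [← disjoint_iff.1 h2]
      exact le_inf inf_le_right (h1.le.trans inf_le_right)
    have h4 := hLM i (Fin.castLE hb k)
    rw [le_bot_iff.1 h3, finrank_bot] at h4
    exact absurd h4 (by norm_num)
  · intro k
    exact hmem i _ _ (Projectivization.submodule_mk'' _ _)
  · intro k
    rw [Projectivization.submodule_mk'']
    exact inf_le_left

lemma grid_count {c : ℂ} (hc : c ≠ 0) {a b : ℕ} {L : Fin a → Submodule ℂ (Fin 4 → ℂ)}
    {M : Fin b → Submodule ℂ (Fin 4 → ℂ)} (hL : ∀ i, finrank ℂ (L i) = 2)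
    (hMd : ∀ j j', j ≠ j' → Disjoint (M j) (M j'))
    (hLM : ∀ i j, finrank ℂ ↥(L i ⊓ M j) = 1)
    (hmem : config c = {p | ∃ i j, p.submodule = L i ⊓ M j}) (hb : 4 ≤ b) : 4 ≤ a := by
  have h1 := grid_lines hc hL hMd hLM (fun i j p hp => by rw [hmem]; exact ⟨i, j, hp⟩) hb
  choose k hk using h1
  have hs : Function.Surjective k := by
    intro l
    have h2 := pt_mem l (one_mem c)
    rw [hmem] at h2
    obtain ⟨i, j, hij⟩ := h2
    refine ⟨i, ?_⟩
    by_contra hne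
    rw [Projectivization.submodule_mk] at hij
    have h3 : vec l 1 1 ∈ L i := by
      have : vec l 1 1 ∈ L i ⊓ M j := by
        rw [← hij]
        exact Submodule.mem_span_singleton_self _
      exact this.1
    rw [hk i] at h3
    have h4 : vec l 1 1 ∈ Line l := mem_Line.2 ⟨1, 1, rfl⟩
    exact vec_ne_zero one_ne_zero ((Submodule.disjoint_def.1 (Line_disjoint hne)) _ h3 h4)
  have := Fintype.card_le_of_surjective k hs
  simpa using this

lemma not_grid {c : ℂ} (hc : c ≠ 0) (hc1 : c ≠ 1) (a b : ℕ) : ¬ IsGrid a b (config c) := by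
  rintro ⟨L, M, hL, hM, hLd, hMd, hLM, hmem⟩
  have hML : ∀ j i, finrank ℂ ↥(M j ⊓ L i) = 1 := fun j i => by rw [inf_comm]; exact hLM i j
  have hmem' : config c = {p | ∃ j i, p.submodule = M j ⊓ L i} := by
    rw [hmem]
    ext p
    constructor
    · rintro ⟨i, j, h⟩
      exact ⟨j, i, by rw [h, inf_comm]⟩
    · rintro ⟨j, i, h⟩
      exact ⟨i, j, by rw [h, inf_comm]⟩
  have h1 : 4 ≤ b → 4 ≤ a := grid_count hc hL hMd hLM hmem
  have h2 : 4 ≤ a → 4 ≤ b := grid_count hc hM hLd hML hmem'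
  by_cases hb : 4 ≤ b
  · have ha := h1 hb
    have h3 := grid_lines hc hL hMd hLM (fun i j p hp => by rw [hmem]; exact ⟨i, j, hp⟩) hb
    have h4 := grid_lines hc hM hLd hML (fun j i p hp => by rw [hmem']; exact ⟨j, i, hp⟩) ha
    obtain ⟨k, hk⟩ := h3 ⟨0, by omega⟩
    obtain ⟨l, hl⟩ := h4 ⟨0, by omega⟩
    have h5 := hLM ⟨0, by omega⟩ ⟨0, by omega⟩
    rw [hk, hl] at h5
    by_cases hkl : k = l
    · rw [hkl, inf_idem, Line_finrank] at h5
      exact absurd h5 (by norm_num)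
    · rw [disjoint_iff.1 (Line_disjoint hkl), finrank_bot] at h5
      exact absurd h5 (by norm_num)
  · have ha : ¬ 4 ≤ a := fun h => hb (h2 h)
    have h3 : config c ⊆ (fun x : Fin a × Fin b => Projectivization.mk'' (L x.1 ⊓ M x.2)
        (hLM x.1 x.2)) '' Set.univ := by
      rw [hmem]
      rintro p ⟨i, j, h⟩
      refine ⟨(i, j), Set.mem_univ _, ?_⟩
      apply Projectivization.submodule_injective
      rw [Projectivization.submodule_mk'', h]
    have h4 := (Set.ncard_le_ncard h3 (Set.finite_univ.image _)).trans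
      (Set.ncard_image_le Set.finite_univ)
    rw [config_ncard hc hc1, Set.ncard_univ, Nat.card_prod, Nat.card_fin, Nat.card_fin] at h4
    have h5 : a * b ≤ 3 * 3 := Nat.mul_le_mul (by omega) (by omega)
    omega

theorem nontrivial {c : ℂ} (hc : c ≠ 0) (hc1 : c ≠ 1) : IsNontrivialGeproci 4 6 (config c) :=
  ⟨geproci hc hc1, not_degenerate c, not_grid hc hc1⟩

/-! ## Moduli -/

/-- the points of the last line -/
noncomputable def pt (t : ℂ) : ℙ ℂ (Fin 4 → ℂ) :=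
  Projectivization.mk ℂ (vec 3 1 t) (vec_ne_zero one_ne_zero)

lemma fixed {h : (Fin 4 → ℂ) ≃ₗ[ℂ] (Fin 4 → ℂ)} {t t' : ℂ} (hh : h • pt t = pt t') :
    ∃ l : ℂ, h (vec 3 1 t) = l • vec 3 1 t' := by
  unfold pt at hh
  rw [Projectivization.smul_mk, Projectivization.mk_eq_mk_iff'] at hh
  obtain ⟨a, ha⟩ := hh
  exact ⟨a, ha.symm⟩

lemma rigid' {h : (Fin 4 → ℂ) ≃ₗ[ℂ] (Fin 4 → ℂ)} {s s' : ℂ} (hA : h • pt 1 = pt 1)
    (hB : h • pt om = pt om) (hC : h • pt (om ^ 2) = pt (om ^ 2)) (hD : h • pt s = pt s') :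
    s = s' := by
  obtain ⟨l0, h0⟩ := fixed hA
  obtain ⟨l1, h1⟩ := fixed hB
  obtain ⟨l2, h2⟩ := fixed hC
  obtain ⟨m, h3⟩ := fixed hD
  have e2 : vec 3 1 (om ^ 2) = (-om) • vec 3 1 1 + (-om ^ 2) • vec 3 1 om := by
    rw [vec_smul, vec_smul, vec_add]
    congr 1
    · linear_combination om_eq
    · linear_combination (om + 0) * om_eq
  have hom : om - 1 ≠ 0 := sub_ne_zero.2 om_ne_one
  have e3 : vec 3 1 s = ((om - s) / (om - 1)) • vec 3 1 1 + ((s - 1) / (om - 1)) • vec 3 1 om := by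
    rw [vec_smul, vec_smul, vec_add]
    congr 1
    · field_simp
      ring
    · field_simp
      ring
  have hl0 : l0 ≠ 0 := by
    rintro rfl
    rw [zero_smul] at h0
    exact vec_ne_zero one_ne_zero ((map_eq_zero_iff h h.injective).1 h0)
  rw [e2, map_add, map_smul, map_smul, h0, h1, ← e2, vec_smul, vec_smul, vec_smul, vec_smul,
    vec_smul, vec_add] at h2
  obtain ⟨f1, f2⟩ := vec_inj h2
  have hl : l0 = l1 := by
    have : (om - 1) * (l0 - l1) = 0 := by
      have := om_eq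
      grind
    exact sub_eq_zero.1 ((mul_eq_zero.1 this).resolve_left hom)
  have h4 : h (vec 3 1 s) = l0 • vec 3 1 s := by
    rw [e3, map_add, map_smul, map_smul, h0, h1, ← hl, ← e3]
    rw [smul_comm _ l0, smul_comm _ l0, ← smul_add, ← e3]
  rw [h4, vec_smul, vec_smul] at h3
  obtain ⟨f3, f4⟩ := vec_inj h3
  rw [mul_one, mul_one] at f3
  rw [← f3] at f4
  exact mul_left_cancel₀ hl0 f4

lemma rigid {g g' : (Fin 4 → ℂ) ≃ₗ[ℂ] (Fin 4 → ℂ)} {s s' : ℂ} (hA : g • pt 1 = g' • pt 1)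
    (hB : g • pt om = g' • pt om) (hC : g • pt (om ^ 2) = g' • pt (om ^ 2))
    (hD : g • pt s = g' • pt s') : s = s' := by
  apply rigid' (h := g'⁻¹ * g)
  · rw [mul_smul, hA, inv_smul_smul]
  · rw [mul_smul, hB, inv_smul_smul]
  · rw [mul_smul, hC, inv_smul_smul]
  · rw [mul_smul, hD, inv_smul_smul]

lemma pt_mem_config {c t : ℂ} (ht : t ∈ Tset c) : pt t ∈ config c := pt_mem 3 ht

/-- the class of the configuration -/
noncomputable def cls (c : ℂ) : MulAction.orbitRel.Quotient ((Fin 4 → ℂ) ≃ₗ[ℂ] (Fin 4 → ℂ))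
      (Set (ℙ ℂ (Fin 4 → ℂ))) :=
  Quotient.mk (MulAction.orbitRel ((Fin 4 → ℂ) ≃ₗ[ℂ] (Fin 4 → ℂ)) _) (config c)

lemma fiber_finite (c₀ : ℂ) (h0 : c₀ ≠ 0) (h1 : c₀ ≠ 1) : {c : ℂ | cls c = cls c₀}.Finite := by
  have hfin : (config c₀).Finite :=
    Set.finite_of_ncard_ne_zero (by rw [config_ncard h0 h1]; norm_num)
  have hg : ∀ c : ℂ, ∃ g : (Fin 4 → ℂ) ≃ₗ[ℂ] (Fin 4 → ℂ), cls c = cls c₀ →
      g • config c = config c₀ := by
    intro c
    by_cases h : cls c = cls c₀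
    · have h2 := (MulAction.orbitRel_apply.1 (Quotient.exact h.symm))
      obtain ⟨g, hg⟩ := h2
      exact ⟨g, fun _ => hg⟩
    · exact ⟨1, fun h' => absurd h' h⟩
  choose g hg using hg
  choose s hs using exists_cube_root
  have hmem : ∀ c, cls c = cls c₀ → ∀ t ∈ Tset c, g c • pt t ∈ config c₀ := by
    intro c hc t ht
    rw [← hg c hc]
    exact Set.smul_mem_smul_set (pt_mem_config ht)
  apply Set.Finite.of_injOn (f := fun c => (g c • pt 1, g c • pt om, g c • pt (om ^ 2),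
    g c • pt (s c))) (t := config c₀ ×ˢ (config c₀ ×ˢ (config c₀ ×ˢ config c₀)))
  · intro c hc
    exact ⟨hmem c hc _ (one_mem c), hmem c hc _ (om_mem c), hmem c hc _ (om2_mem c),
      hmem c hc _ (Or.inr (hs c))⟩
  · intro c hc c' hc' h
    simp only [Prod.mk.injEq] at h
    obtain ⟨hA, hB, hC, hD⟩ := h
    have := rigid hA hB hC hD
    rw [← hs c, ← hs c', this]
  · exact hfin.prod (hfin.prod (hfin.prod hfin))

/-- **Nontrivial `(4, 6)`-geproci sets have uncountably many projective equivalence classes.**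
In particular there is a pair `(a, b)` for which the nontrivial `(a, b)`-geproci sets in `ℙ³` fall
into infinitely many projective equivalence classes. -/
theorem result : ¬ (nontrivialClasses 4 6).Countable := by
  intro hcount
  have h1 : {c : ℂ | c ≠ 0 ∧ c ≠ 1} ⊆ ⋃ κ ∈ nontrivialClasses 4 6,
      {c : ℂ | (c ≠ 0 ∧ c ≠ 1) ∧ cls c = κ} := by
    intro c hc
    rw [Set.mem_iUnion₂]
    exact ⟨cls c, ⟨config c, nontrivial hc.1 hc.2, rfl⟩, hc, rfl⟩
  have h2 : (⋃ κ ∈ nontrivialClasses 4 6,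
      {c : ℂ | (c ≠ 0 ∧ c ≠ 1) ∧ cls c = κ}).Countable := by
    apply hcount.biUnion
    intro κ _
    rcases Set.eq_empty_or_nonempty {c : ℂ | (c ≠ 0 ∧ c ≠ 1) ∧ cls c = κ} with he | ⟨c₀, hc₀, hκ⟩
    · rw [he]
      exact Set.countable_empty
    · apply ((fiber_finite c₀ hc₀.1 hc₀.2).subset _).countable
      rintro c ⟨-, hc⟩
      change cls c = cls c₀
      rw [hc, hκ]
  have h3 : (Set.univ : Set ℂ).Countable := by
    apply ((h2.mono h1).union ((Set.finite_singleton (0 : ℂ)).union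
      (Set.finite_singleton (1 : ℂ))).countable).mono
    intro c _
    by_cases hc0 : c = 0
    · exact Or.inr (Or.inl hc0)
    · by_cases hc1 : c = 1
      · exact Or.inr (Or.inr hc1)
      · exact Or.inl ⟨hc0, hc1⟩
  exact not_countable_complex h3

end Pool.Agent.Results.MP_e29873_ag.UncountableModuli
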